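import Pool.Agent.Helper33.DZ.Stmts

set_option autoImplicit false

/-! # The Eisenstein series as functions of `q` -/

open Complex hiding I
open UpperHalfPlane hiding I
open ModularForm ModularFormClass MatrixGroups EisensteinSeries
  SlashInvariantFormClass CongruenceSubgroup

namespace Pool.Agent.Helper33.DZ

/-- a modular form of level one as a function of `q` -/
theorem eis_gen (k : ℕ) (f : ModularForm 𝒮ℒ (k : ℤ)) :
    DifferentiableOn ℂ (cuspFunction 1 f) (Metric.ball 0 1) ∧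
    (∀ z : ℂ, 0 < z.im → cuspFunction 1 f (Complex.exp (2 * Real.pi * Complex.I * (-1 / z))) =
      z ^ k * cuspFunction 1 f (Complex.exp (2 * Real.pi * Complex.I * z))) ∧
    ∀ q ∈ Metric.ball (0 : ℂ) 1,
      HasSum (fun n : ℕ => (qExpansion 1 f).coeff n • q ^ n) (cuspFunction 1 f q) := by
  have hper := periodic_comp_ofComplex f one_mem_strictPeriods_SL
  have hcusp : ∀ τ : ℍ, cuspFunction 1 f (Complex.exp (2 * Real.pi * Complex.I * (τ : ℂ))) = f τ := by
    intro τ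
    have := SlashInvariantFormClass.eq_cuspFunction f τ one_mem_strictPeriods_SL one_ne_zero
    rw [← this]
    congr 1
    simp [Function.Periodic.qParam]
  refine ⟨differentiableOn_cuspFunction_ball one_pos hper (ModularFormClass.holo f)
    (ModularFormClass.bdd_at_infty f), ?_, ?_⟩
  · intro z hz
    have h1 := hcusp ⟨z, hz⟩
    have hS := SlashInvariantForm.slash_action_eqn'' f (γ := (ModularGroup.S : GL (Fin 2) ℝ))
      (by exact ⟨_, rfl⟩) ⟨z, hz⟩
    have h2 := hcusp (ModularGroup.S • (⟨z, hz⟩ : ℍ))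
    have h3 : ((ModularGroup.S • (⟨z, hz⟩ : ℍ) : ℍ) : ℂ) = -1 / z := by
      rw [modular_S_smul]
      simp [neg_div, inv_neg]
    rw [h3] at h2
    have h1' : cuspFunction 1 f (Complex.exp (2 * Real.pi * Complex.I * z)) = f ⟨z, hz⟩ := h1
    rw [h2, h1']
    have h4 : f (ModularGroup.S • (⟨z, hz⟩ : ℍ)) =
      (denom (ModularGroup.S : GL (Fin 2) ℝ) ((⟨z, hz⟩ : ℍ) : ℂ)) ^ (k : ℤ) * f ⟨z, hz⟩ := hS
    rw [h4]
    congr 1
    have h5 : denom (ModularGroup.S : GL (Fin 2) ℝ) ((⟨z, hz⟩ : ℍ) : ℂ) = z :=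
      ModularGroup.denom_S ⟨z, hz⟩
    rw [h5, zpow_natCast]
  · intro q hq
    exact hasSum_qExpansion_of_norm_lt one_pos hper (ModularFormClass.holo f)
      (ModularFormClass.bdd_at_infty f) (by simpa using hq)

theorem eis_sum (c : ℂ) (a : ℕ → ℂ) (q g : ℂ) (b : ℕ → ℂ) (h0 : b 0 = 1)
    (hb : ∀ n : ℕ, b (n + 1) = c * a (n + 1)) (h : HasSum (fun n : ℕ => b n • q ^ n) g) :
    HasSum (fun n : ℕ => c * a (n + 1) * q ^ (n + 1)) (g - 1) := by
  have h' := (hasSum_nat_add_iff' 1).2 h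
  simp only [Finset.sum_range_one, h0, pow_zero, smul_eq_mul, mul_one] at h'
  refine h'.congr_fun ?_
  intro n
  rw [hb]

theorem st_EIS : ST_EIS := by
  constructor
  · obtain ⟨h1, h2, h3⟩ := eis_gen 4 E₄
    refine ⟨cuspFunction 1 E₄, h1, h2, ?_⟩
    intro q hq
    refine eis_sum 240 (fun n => ((ArithmeticFunction.sigma 3 n : ℕ) : ℂ)) q _ _
      (E_qExpansion_coeff_zero _ ⟨2, rfl⟩) ?_ (h3 q hq)
    intro n
    rw [E_qExpansion_coeff _ ⟨2, rfl⟩]
    norm_num [show bernoulli 4 = -1 / 30 by decide +kernel]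
  · obtain ⟨h1, h2, h3⟩ := eis_gen 6 E₆
    refine ⟨cuspFunction 1 E₆, h1, h2, ?_⟩
    intro q hq
    refine eis_sum (-504) (fun n => ((ArithmeticFunction.sigma 5 n : ℕ) : ℂ)) q _ _
      (E_qExpansion_coeff_zero _ ⟨3, rfl⟩) ?_ (h3 q hq)
    intro n
    rw [E_qExpansion_coeff _ ⟨3, rfl⟩]
    norm_num [show bernoulli 6 = 1 / 42 by decide +kernel]

end Pool.Agent.Helper33.DZ
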