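import Pool.Agent.Helper40.DZ.Stmts

/-! FPR: Parseval's identity for square integrable functions, and correlations with translates. -/

open Finset Filter MeasureTheory Topology
open scoped ComplexConjugate InnerProductSpace

namespace Pool.Agent.Helper40.DZ

open Pool.Agent.Helper16.AZ (T E Op mm fc)
open UnitAddTorus (mFourier)

theorem fpr_coeff {r : ℕ} {F : T r → ℂ} (hF : MemLp F 2 (mm r)) (X : Fin r → ℤ) :
    UnitAddTorus.mFourierCoeff (hF.toLp F : T r → ℂ) X = fc F X := by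
  show (∫ θ, mFourier (-X) θ • (hF.toLp F : T r → ℂ) θ ∂(mm r)) = _
  unfold fc
  refine integral_congr_ae ?_
  filter_upwards [hF.coeFn_toLp] with θ hθ
  rw [hθ, smul_eq_mul]

theorem fpr_one {r : ℕ} {F : T r → ℂ} (hF : MemLp F 2 (mm r)) :
    HasSum (fun X : Fin r → ℤ => ‖fc F X‖ ^ 2) (∫ θ, ‖F θ‖ ^ 2 ∂(mm r)) := by
  have h : HasSum (fun X : Fin r → ℤ => ‖UnitAddTorus.mFourierCoeff (hF.toLp F : T r → ℂ) X‖ ^ 2)
      (∫ θ, ‖(hF.toLp F : T r → ℂ) θ‖ ^ 2 ∂(mm r)) :=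
    UnitAddTorus.hasSum_sq_mFourierCoeff (d := Fin r) (hF.toLp F)
  have h2 : (∫ θ, ‖(hF.toLp F : T r → ℂ) θ‖ ^ 2 ∂(mm r)) = ∫ θ, ‖F θ‖ ^ 2 ∂(mm r) := by
    refine integral_congr_ae ?_
    filter_upwards [hF.coeFn_toLp] with θ hθ
    rw [hθ]
  simp only [fpr_coeff hF] at h
  rwa [h2] at h

theorem fpr_inner {r : ℕ} {F G : T r → ℂ} (hF : MemLp F 2 (mm r)) (hG : MemLp G 2 (mm r)) :
    HasSum (fun X : Fin r → ℤ => conj (fc F X) * fc G X) (∫ θ, conj (F θ) * G θ ∂(mm r)) := by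
  have h : HasSum (fun X : Fin r → ℤ =>
      conj (UnitAddTorus.mFourierCoeff (hF.toLp F : T r → ℂ) X) *
        UnitAddTorus.mFourierCoeff (hG.toLp G : T r → ℂ) X)
      (∫ θ, conj ((hF.toLp F : T r → ℂ) θ) * (hG.toLp G : T r → ℂ) θ ∂(mm r)) :=
    UnitAddTorus.hasSum_prod_mFourierCoeff (d := Fin r) (hF.toLp F) (hG.toLp G)
  have h2 : (∫ θ, conj ((hF.toLp F : T r → ℂ) θ) * (hG.toLp G : T r → ℂ) θ ∂(mm r)) =
      ∫ θ, conj (F θ) * G θ ∂(mm r) := by
    refine integral_congr_ae ?_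
    filter_upwards [hF.coeFn_toLp, hG.coeFn_toLp] with θ hθ hθ'
    rw [hθ, hθ']
  simp only [fpr_coeff hF, fpr_coeff hG] at h
  rwa [h2] at h

theorem fpr_mf_add {r : ℕ} (X : Fin r → ℤ) (x y : T r) :
    mFourier X (x + y) = mFourier X x * mFourier X y := by
  simp only [mFourier, ContinuousMap.coe_mk, Pi.add_apply, fourier_apply, smul_add,
    AddCircle.toCircle_add, Circle.coe_mul, Finset.prod_mul_distrib]

theorem fpr_mf_mul_neg {r : ℕ} (X : Fin r → ℤ) (x : T r) :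
    mFourier X x * mFourier (-X) x = 1 := by
  rw [← UnitAddTorus.mFourier_add, add_neg_cancel, UnitAddTorus.mFourier_zero]
  rfl

theorem fpr_trans_mem {r : ℕ} {F : T r → ℂ} (hF : MemLp F 2 (mm r)) (τ : T r) :
    MemLp (fun y => F (y + τ)) 2 (mm r) :=
  hF.comp_measurePreserving (measurePreserving_add_right (mm r) τ)

theorem fpr_trans {r : ℕ} (F : T r → ℂ) (τ : T r) (X : Fin r → ℤ) :
    fc (fun y => F (y + τ)) X = mFourier X τ * fc F X := by
  unfold fc
  have h := integral_add_right_eq_self (μ := mm r)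
    (fun y => mFourier (-X) (y - τ) * F y) τ
  simp only [add_sub_cancel_right] at h
  rw [h, ← integral_const_mul]
  refine integral_congr_ae (Eventually.of_forall fun y => ?_)
  show mFourier (-X) (y - τ) * F y = mFourier X τ * (mFourier (-X) y * F y)
  have h1 : mFourier (-X) y = mFourier (-X) (y - τ) * mFourier (-X) τ := by
    rw [← fpr_mf_add, sub_add_cancel]
  rw [h1]
  have h2 := fpr_mf_mul_neg X τ
  calc mFourier (-X) (y - τ) * F y = (mFourier X τ * mFourier (-X) τ) *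
      (mFourier (-X) (y - τ) * F y) := by rw [h2, one_mul]
    _ = _ := by ring

theorem st_FPR : ST_FPR := by
  intro r F hF
  refine ⟨fpr_one hF, fun τ => ?_⟩
  have h := fpr_inner (fpr_trans_mem hF τ) hF
  have h1 : (∫ θ, conj (F (θ + τ)) * F θ ∂(mm r)) = ∫ y, F y * conj (F (y + τ)) ∂(mm r) := by
    refine integral_congr_ae (Eventually.of_forall fun y => ?_)
    show conj (F (y + τ)) * F y = F y * conj (F (y + τ))
    ring
  rw [h1] at h
  refine h.congr_fun fun X => ?_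
  show ((‖fc F X‖ ^ 2 : ℝ) : ℂ) * mFourier (-X) τ = conj (fc (fun y => F (y + τ)) X) * fc F X
  rw [fpr_trans, map_mul, UnitAddTorus.mFourier_neg, Complex.ofReal_pow, ← Complex.conj_mul']
  ring

end Pool.Agent.Helper40.DZ
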