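import Pool.Agent.Helper40.DZ.Stmts

/-! MQC: the square root of the mass `mq` is a Lipschitz function. -/

open Finset Filter MeasureTheory Topology
open scoped ComplexConjugate InnerProductSpace

namespace Pool.Agent.Helper40.DZ

open Pool.Agent.Helper16.AZ (T E Op mm fc)
open UnitAddTorus (mFourier)

/-- the inequality of Minkowski for sequences -/
theorem mqc_mink {ι : Type} (f g h : ι → ℝ) (hf : ∀ i, 0 ≤ f i) (hg : ∀ i, 0 ≤ g i)
    (hh : ∀ i, 0 ≤ h i) (hle : ∀ i, h i ≤ f i + g i) (sf : Summable fun i => f i ^ 2)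
    (sg : Summable fun i => g i ^ 2) :
    Real.sqrt (∑' i, h i ^ 2) ≤ Real.sqrt (∑' i, f i ^ 2) + Real.sqrt (∑' i, g i ^ 2) := by
  have h1 := Real.Lp_add_le_tsum_of_nonneg (p := 2) one_le_two hf hg
    (by simpa only [Real.rpow_two] using sf) (by simpa only [Real.rpow_two] using sg)
  simp only [Real.rpow_two] at h1
  obtain ⟨h2, h3⟩ := h1
  rw [Real.sqrt_eq_rpow, Real.sqrt_eq_rpow, Real.sqrt_eq_rpow]
  refine le_trans ?_ h3
  refine Real.rpow_le_rpow (tsum_nonneg fun i => by positivity) ?_ (by norm_num)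
  have h4 : ∀ i, h i ^ 2 ≤ (f i + g i) ^ 2 := fun i => pow_le_pow_left₀ (hh i) (hle i) 2
  exact (Summable.of_nonneg_of_le (fun i => by positivity) h4 h2).tsum_le_tsum h4 h2

theorem mqc_sub {r : ℕ} {F G : T r → ℂ} (hF : MemLp F 2 (mm r)) (hG : MemLp G 2 (mm r))
    (X : Fin r → ℤ) : fc G X = fc F X + fc (fun θ => G θ - F θ) X := by
  have hi : ∀ {H : T r → ℂ}, MemLp H 2 (mm r) →
      Integrable (fun θ => mFourier (-X) θ * H θ) (mm r) := by
    intro H hH
    refine (hH.integrable one_le_two).bdd_mul (c := 1)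
      (mFourier (-X)).continuous.aestronglyMeasurable (Eventually.of_forall fun θ => ?_)
    exact ((mFourier (-X)).norm_coe_le_norm θ).trans (le_of_eq UnitAddTorus.mFourier_norm)
  have hd : Integrable (fun θ => mFourier (-X) θ * (G θ - F θ)) (mm r) := hi (hG.sub hF)
  show (∫ θ, mFourier (-X) θ * G θ ∂(mm r)) =
    (∫ θ, mFourier (-X) θ * F θ ∂(mm r)) + ∫ θ, mFourier (-X) θ * (G θ - F θ) ∂(mm r)
  rw [← integral_add (hi hF) hd]
  refine integral_congr_ae (Eventually.of_forall fun θ => ?_)
  show mFourier (-X) θ * G θ = mFourier (-X) θ * F θ + mFourier (-X) θ * (G θ - F θ)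
  ring

theorem st_MQC (hFPR : ST_FPR) : ST_MQC := by
  intro r lev q F G hF hG
  have sF := (hFPR r F hF).1
  have sD := (hFPR r (fun θ => G θ - F θ) (hG.sub hF)).1
  have hsq : ∀ (H : T r → ℂ) (X : Fin r → ℤ), (RR lev q).indicator (fun X => ‖fc H X‖ ^ 2) X =
      ((RR lev q).indicator (fun X => ‖fc H X‖) X) ^ 2 := by
    intro H X
    by_cases h : X ∈ RR lev q
    · rw [Set.indicator_of_mem h, Set.indicator_of_mem h]
    · rw [Set.indicator_of_notMem h, Set.indicator_of_notMem h]
      norm_num
  have h1 := mqc_mink (fun X => (RR lev q).indicator (fun X => ‖fc F X‖) X)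
    (fun X => (RR lev q).indicator (fun X => ‖fc (fun θ => G θ - F θ) X‖) X)
    (fun X => (RR lev q).indicator (fun X => ‖fc G X‖) X)
    (fun X => Set.indicator_nonneg (fun X _ => norm_nonneg _) X)
    (fun X => Set.indicator_nonneg (fun X _ => norm_nonneg _) X)
    (fun X => Set.indicator_nonneg (fun X _ => norm_nonneg _) X)
    (fun X => by
      by_cases h : X ∈ RR lev q
      · rw [Set.indicator_of_mem h, Set.indicator_of_mem h, Set.indicator_of_mem h,
          mqc_sub hF hG X]
        exact norm_add_le _ _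
      · rw [Set.indicator_of_notMem h, Set.indicator_of_notMem h, Set.indicator_of_notMem h,
          add_zero])
    (by simpa only [← hsq] using sF.summable.indicator _)
    (by simpa only [← hsq] using sD.summable.indicator _)
  simp only [← hsq] at h1
  refine h1.trans (add_le_add le_rfl (Real.sqrt_le_sqrt ?_))
  rw [← sD.tsum_eq]
  exact (sD.summable.indicator _).tsum_le_tsum
    (fun X => Set.indicator_le_self' (fun X _ => by positivity) X) sD.summable

end Pool.Agent.Helper40.DZ
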