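import Pool.Agent.Helper40.DZ.Stmts2

/-! ORB: the orbits of the affine maps of zero entropy. -/

open Finset Filter MeasureTheory Topology
open scoped ComplexConjugate InnerProductSpace

namespace Pool.Agent.Helper40.DZ

open Pool.Agent.Helper16.AZ (T E Op mm fc Eig PP)

/-! ### integer polynomials -/

theorem orb_id (n l : ℕ) : (n : ℤ) * (n.choose l : ℤ) =
    (n.choose (l + 1) : ℤ) * (l + 1) + l * (n.choose l : ℤ) := by
  rcases Nat.lt_or_ge n l with h | h
  · rw [Nat.choose_eq_zero_of_lt h, Nat.choose_eq_zero_of_lt (by omega)]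
    simp
  · have h1 := Nat.choose_succ_right_eq n l
    have h2 : ((n.choose (l + 1) * (l + 1) : ℕ) : ℤ) = ((n.choose l * (n - l) : ℕ) : ℤ) := by
      rw [h1]
    rw [Nat.cast_mul, Nat.cast_mul, Nat.cast_sub h] at h2
    push_cast at h2
    linarith

theorem orb_poly (i : ℕ) (a : ℕ → ℤ) : ∃ g : ℕ → ℤ, ∀ n : ℕ,
    ∏ t ∈ range i, ((n : ℤ) - a t) = ∑ l ∈ range (i + 1), g l * (n.choose l : ℤ) := by
  induction i with
  | zero => exact ⟨fun _ => 1, fun n => by simp⟩
  | succ i ih =>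
    obtain ⟨g, hg⟩ := ih
    refine ⟨fun l => (if l = i + 1 then 0 else g l * ((l : ℤ) - a i)) +
      (if l = 0 then 0 else g (l - 1) * l), fun n => ?_⟩
    rw [Finset.prod_range_succ, hg]
    simp only [add_mul, Finset.sum_add_distrib]
    rw [Finset.sum_range_succ (fun l => (if l = i + 1 then 0 else g l * ((l : ℤ) - a i)) *
      (n.choose l : ℤ)) (i + 1)]
    rw [Finset.sum_range_succ' (fun l => (if l = 0 then 0 else g (l - 1) * (l : ℤ)) *
      (n.choose l : ℤ)) (i + 1)]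
    simp only [if_true, zero_mul, add_zero]
    rw [← Finset.sum_add_distrib, Finset.sum_mul]
    refine Finset.sum_congr rfl fun l hl => ?_
    have hl' : l ≠ i + 1 := by
      have := Finset.mem_range.1 hl
      omega
    rw [if_neg hl', if_neg (Nat.succ_ne_zero l)]
    have h1 := orb_id n l
    simp only [Nat.add_sub_cancel, Nat.cast_add, Nat.cast_one]
    linear_combination (g l) * h1

theorem orb_desc (k i : ℕ) : ∏ t ∈ range i, ((k : ℤ) - t) =
    (i.factorial : ℤ) * (k.choose i : ℤ) := by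
  induction i with
  | zero => simp
  | succ i ih =>
    rw [Finset.prod_range_succ, ih, Nat.factorial_succ]
    have h1 := orb_id k i
    push_cast
    linear_combination (i.factorial : ℤ) * h1

theorem orb_choose (Q R i : ℕ) (hi : i ≤ R) (b : ℤ) : ∃ g : ℕ → ℤ, ∀ n k : ℕ,
    (n : ℤ) = b + Q * k → (Q : ℤ) ^ R * (R.factorial : ℤ) * (k.choose i : ℤ) =
      ∑ l ∈ range (R + 1), g l * (n.choose l : ℤ) := by
  obtain ⟨g, hg⟩ := orb_poly i (fun t => b + Q * t)
  obtain ⟨e, he⟩ := Nat.factorial_dvd_factorial hi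
  refine ⟨fun l => if l < i + 1 then (Q : ℤ) ^ (R - i) * e * g l else 0, fun n k h => ?_⟩
  have h1 : ∏ t ∈ range i, ((n : ℤ) - (b + Q * t)) =
      (Q : ℤ) ^ i * ((i.factorial : ℤ) * (k.choose i : ℤ)) := by
    have h2 : ∀ t ∈ range i, ((n : ℤ) - (b + Q * t)) = (Q : ℤ) * ((k : ℤ) - t) := by
      intro t _
      rw [h]
      ring
    rw [Finset.prod_congr rfl h2, Finset.prod_mul_distrib, Finset.prod_const, Finset.card_range,
      orb_desc]
  have h3 := hg n
  rw [h1] at h3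
  have h4 : ∑ l ∈ range (R + 1), (if l < i + 1 then (Q : ℤ) ^ (R - i) * e * g l else 0) *
      (n.choose l : ℤ) = ∑ l ∈ range (i + 1), (Q : ℤ) ^ (R - i) * e * g l * (n.choose l : ℤ) := by
    rw [← Finset.sum_subset (Finset.range_subset_range.2 (by omega : i + 1 ≤ R + 1))]
    · refine Finset.sum_congr rfl fun l hl => ?_
      rw [if_pos (Finset.mem_range.1 hl)]
    · intro l _ hl
      rw [if_neg (fun h' => hl (Finset.mem_range.2 h')), zero_mul]
  rw [h4]
  have h5 : ∑ l ∈ range (i + 1), (Q : ℤ) ^ (R - i) * e * g l * (n.choose l : ℤ) =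
      (Q : ℤ) ^ (R - i) * e * ∑ l ∈ range (i + 1), g l * (n.choose l : ℤ) := by
    rw [Finset.mul_sum]
    refine Finset.sum_congr rfl fun l _ => ?_
    ring
  rw [h5, ← h3, he]
  have h6 : (Q : ℤ) ^ R = (Q : ℤ) ^ (R - i) * (Q : ℤ) ^ i := by
    rw [← pow_add]
    congr 1
    omega
  rw [h6]
  push_cast
  ring

theorem orb_dvd (D R t b : ℕ) (hb : b + 1 ≤ R) :
    D ∣ (D * R.factorial * t).choose (b + 1) := by
  rcases Nat.eq_zero_or_pos (D * R.factorial * t) with h | h
  · rw [h]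
    simp
  · obtain ⟨M', hM'⟩ : ∃ M', D * R.factorial * t = M' + 1 := ⟨D * R.factorial * t - 1, by omega⟩
    obtain ⟨e, he⟩ : (b + 1) ∣ R.factorial := Nat.dvd_factorial (Nat.succ_pos b) hb
    have h1 := Nat.add_one_mul_choose_eq M' b
    rw [hM']
    refine ⟨e * t * M'.choose b, ?_⟩
    have h2 : (M' + 1).choose (b + 1) * (b + 1) = D * (e * t * M'.choose b) * (b + 1) := by
      rw [← h1, ← hM', he]
      ring
    exact Nat.eq_of_mul_eq_mul_right (Nat.succ_pos b) h2

theorem orb_per (D R t κ i : ℕ) (hi : i ≤ R) :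
    (D : ℤ) ∣ ((κ + D * R.factorial * t).choose i : ℤ) - (κ.choose i : ℤ) := by
  induction κ generalizing i with
  | zero =>
    rcases i with _ | i
    · simp
    · rw [Nat.zero_add, Nat.choose_zero_succ, Nat.cast_zero, sub_zero]
      exact_mod_cast orb_dvd D R t i hi
  | succ κ ih =>
    rcases i with _ | i
    · simp
    · have h1 : κ + 1 + D * R.factorial * t = (κ + D * R.factorial * t) + 1 := by ring
      rw [h1, Nat.choose_succ_succ, Nat.choose_succ_succ]
      have h2 := ih i (by omega)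
      have h3 := ih (i + 1) hi
      have h4 := dvd_add h2 h3
      have h5 : (((κ + D * R.factorial * t).choose i : ℤ) - (κ.choose i : ℤ)) +
          (((κ + D * R.factorial * t).choose (i + 1) : ℤ) - (κ.choose (i + 1) : ℤ)) =
          (((κ + D * R.factorial * t).choose i + (κ + D * R.factorial * t).choose i.succ : ℕ) : ℤ) -
          ((κ.choose i + κ.choose i.succ : ℕ) : ℤ) := by
        push_cast
        ring
      rw [h5] at h4
      exact h4

/-! ### powers of matrices -/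

theorem orb_pow {κ : Type} [Fintype κ] [DecidableEq κ] (M : Matrix κ κ ℤ) (a Q R k : ℕ)
    (h : M ^ a * (M ^ Q - 1) ^ R = 0) :
    M ^ (a + Q * k) = ∑ i ∈ range R, (k.choose i : ℤ) • (M ^ a * (M ^ Q - 1) ^ i) := by
  have hz : ∀ i, R ≤ i → M ^ a * (M ^ Q - 1) ^ i = 0 := by
    intro i hi
    obtain ⟨j, rfl⟩ := Nat.exists_eq_add_of_le hi
    rw [pow_add, ← mul_assoc, h, zero_mul]
  have h1 : M ^ (a + Q * k) = M ^ a * ((M ^ Q - 1) + 1) ^ k := by
    rw [pow_add, pow_mul, sub_add_cancel]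
  rw [h1, (Commute.one_right (M ^ Q - 1)).add_pow, Finset.mul_sum]
  have h2 : ∀ i ∈ range (k + 1), M ^ a * ((M ^ Q - 1) ^ i * 1 ^ (k - i) *
      ((k.choose i : ℕ) : Matrix κ κ ℤ)) = (k.choose i : ℤ) • (M ^ a * (M ^ Q - 1) ^ i) := by
    intro i _
    rw [one_pow, mul_one, ← mul_assoc, ← nsmul_eq_mul', natCast_zsmul]
  rw [Finset.sum_congr rfl h2]
  rw [Finset.sum_subset (Finset.range_subset_range.2 (by omega : k + 1 ≤ k + 1 + R))
    (fun i _ hi => by
      have hlt : k < i := by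
        by_contra h'
        exact hi (Finset.mem_range.2 (by omega))
      rw [Nat.choose_eq_zero_of_lt hlt]
      simp)]
  rw [Finset.sum_subset (Finset.range_subset_range.2 (by omega : R ≤ k + 1 + R))
    (fun i _ hi => by
      have hle : R ≤ i := by
        by_contra h'
        exact hi (Finset.mem_range.2 (by omega))
      rw [hz i hle]
      simp)]

/-! ### independent real numbers -/

theorem orb_basis0 {κ : Type} [Fintype κ] [DecidableEq κ] (z : κ → ℝ) :
    ∃ (I : Finset κ) (D : ℕ) (c : κ → ℤ) (X : κ → κ → ℤ), 1 ≤ D ∧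
      (∀ k, (D : ℝ) * z k = c k + ∑ s ∈ I, (X k s : ℝ) * z s) ∧
      ∀ Y : κ → ℤ, (∀ s, s ∉ I → Y s = 0) → ∀ t : ℤ, ∑ s, (Y s : ℝ) * z s = t → Y = 0 := by
  classical
  obtain ⟨Ind, hInd⟩ : ∃ Ind : Finset κ → Prop, Ind = fun I => ∀ Y : κ → ℤ,
    (∀ s, s ∉ I → Y s = 0) → ∀ t : ℤ, ∑ s, (Y s : ℝ) * z s = t → Y = 0 := ⟨_, rfl⟩
  have h0 : Ind ∅ := by
    rw [hInd]
    intro Y hY t _
    funext s
    exact hY s (Finset.notMem_empty s)
  obtain ⟨I, hI, hmax⟩ := Finset.exists_max_image (Finset.univ.filter Ind) Finset.card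
    ⟨∅, by simpa using h0⟩
  have hI' : Ind I := (Finset.mem_filter.1 hI).2
  have hI2 := hI'
  rw [hInd] at hI2
  have hk : ∀ k, ∃ (d : ℤ) (c : ℤ) (X : κ → ℤ), d ≠ 0 ∧
      (d : ℝ) * z k = c + ∑ s ∈ I, (X s : ℝ) * z s := by
    intro k
    by_cases hkI : k ∈ I
    · refine ⟨1, 0, fun s => if s = k then 1 else 0, one_ne_zero, ?_⟩
      rw [Finset.sum_eq_single_of_mem k hkI (fun s _ hs => by simp [hs])]
      simp
    · have h1 : ¬ Ind (insert k I) := by
        intro h
        have := hmax (insert k I) (by simpa using h)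
        rw [Finset.card_insert_of_notMem hkI] at this
        omega
      rw [hInd] at h1
      push Not at h1
      obtain ⟨Y, hY, t, ht, hY0⟩ := h1
      have hYk : Y k ≠ 0 := by
        intro h2
        apply hY0
        refine hI2 Y (fun s hs => ?_) t ht
        by_cases hsk : s = k
        · rw [hsk, h2]
        · exact hY s (by
            rw [Finset.mem_insert]
            push Not
            exact ⟨hsk, hs⟩)
      refine ⟨Y k, t, fun s => -Y s, hYk, ?_⟩
      have h3 : ∑ s, (Y s : ℝ) * z s = ∑ s ∈ insert k I, (Y s : ℝ) * z s := by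
        symm
        refine Finset.sum_subset (Finset.subset_univ _) fun s _ hs => ?_
        rw [hY s hs]
        simp
      rw [h3, Finset.sum_insert hkI] at ht
      have h4 : ∑ s ∈ I, (((-Y s : ℤ)) : ℝ) * z s = -∑ s ∈ I, (Y s : ℝ) * z s := by
        rw [← Finset.sum_neg_distrib]
        refine Finset.sum_congr rfl fun s _ => ?_
        push_cast
        ring
      rw [h4]
      linarith
  choose d c X hd hX using hk
  have hdvd : ∀ k, ∃ e : ℤ, ((∏ k, (d k).natAbs : ℕ) : ℤ) = d k * e := by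
    intro k
    have h1 : (d k).natAbs ∣ ∏ k, (d k).natAbs :=
      Finset.dvd_prod_of_mem (fun k => (d k).natAbs) (Finset.mem_univ k)
    have h2 : (((d k).natAbs : ℕ) : ℤ) ∣ ((∏ k, (d k).natAbs : ℕ) : ℤ) := by exact_mod_cast h1
    rw [Int.natAbs_dvd] at h2
    exact h2
  choose e he using hdvd
  refine ⟨I, ∏ k, (d k).natAbs, fun k => e k * c k, fun k s => e k * X k s, ?_, fun k => ?_, hI2⟩
  · exact Nat.one_le_iff_ne_zero.2 (Finset.prod_ne_zero_iff.2 fun k _ => Int.natAbs_ne_zero.2 (hd k))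
  · have h1 : (((∏ k, (d k).natAbs : ℕ) : ℤ) : ℝ) = (d k : ℝ) * (e k : ℝ) := by
      rw [he k]
      push_cast
      ring
    have h2 : ((∏ k, (d k).natAbs : ℕ) : ℝ) = (d k : ℝ) * (e k : ℝ) := by
      rw [← h1, Int.cast_natCast]
    rw [h2]
    have h3 : ∑ s ∈ I, (((e k * X k s : ℤ)) : ℝ) * z s = (e k : ℝ) * ∑ s ∈ I, (X k s : ℝ) * z s := by
      rw [Finset.mul_sum]
      refine Finset.sum_congr rfl fun s _ => ?_
      push_cast
      ring
    rw [h3]
    have h4 := hX k
    push_cast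
    linear_combination (e k : ℝ) * h4

theorem orb_basis {κ : Type} [Fintype κ] [DecidableEq κ] (z : κ → ℝ) :
    ∃ (a D : ℕ) (θ : Fin a → ℝ) (c : κ → ℤ) (X : κ → Fin a → ℤ), 1 ≤ D ∧
      (∀ k, (D : ℝ) * z k = c k + ∑ s, (X k s : ℝ) * θ s) ∧
      ∀ Y : Fin a → ℤ, ∀ t : ℤ, ∑ s, (Y s : ℝ) * θ s = t → Y = 0 := by
  classical
  obtain ⟨I, D, c, X, hD, hX, hI⟩ := orb_basis0 z
  have e := I.equivFin
  have hs : ∀ f : κ → ℝ, ∑ s ∈ I, f s = ∑ s : Fin I.card, f (e.symm s) := by
    intro f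
    rw [← Finset.sum_coe_sort I f]
    exact (Equiv.sum_comp e.symm (fun s : I => f s)).symm
  refine ⟨I.card, D, fun s => z (e.symm s), c, fun k s => X k (e.symm s), hD, fun k => ?_,
    fun Y t h => ?_⟩
  · rw [hX k, hs]
  · have h1 := hI (fun s => if h : s ∈ I then Y (e ⟨s, h⟩) else 0) (fun s hs' => dif_neg hs') t ?_
    · funext s
      have h2 := congrFun h1 (e.symm s)
      simp only [Finset.coe_mem, dite_true, Subtype.coe_eta, Equiv.apply_symm_apply,
        Pi.zero_apply] at h2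
      exact h2
    · rw [← h]
      rw [← Finset.sum_subset (Finset.subset_univ I) (fun s _ hs' => by
        rw [dif_neg hs']
        simp)]
      rw [hs]
      refine Finset.sum_congr rfl fun s _ => ?_
      simp

/-! ### the standard system -/

section std

variable {a R : ℕ}

/-- the two indices of a coordinate -/
noncomputable def orbE (a R : ℕ) : Fin (a * R) ≃ Fin a × Fin R := finProdFinEquiv.symm

/-- the nilpotent part -/
noncomputable def orbW (a R : ℕ) : Matrix (Fin (a * R)) (Fin (a * R)) ℤ := fun p q =>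
  if (orbE a R p).1 = (orbE a R q).1 ∧ ((orbE a R p).2 : ℕ) = (orbE a R q).2 + 1 then 1 else 0

/-- the translation -/
noncomputable def orbB (θ : Fin a → ℝ) : T (a * R) := fun p =>
  if ((orbE a R p).2 : ℕ) = 0 then (θ (orbE a R p).1 : UnitAddCircle) else 0

/-- the map -/
noncomputable def orbS (θ : Fin a → ℝ) : C(T (a * R), T (a * R)) :=
  ⟨fun z p => (∑ q, (1 + orbW a R) p q • z q) + orbB (R := R) θ p, by fun_prop⟩

theorem orbW_pow (k : ℕ) (p q : Fin (a * R)) (h : (orbW a R ^ k) p q ≠ 0) :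
    ((orbE a R q).2 : ℕ) + k ≤ (orbE a R p).2 := by
  induction k generalizing q with
  | zero =>
    rw [pow_zero] at h
    have : p = q := by
      by_contra h'
      exact h (Matrix.one_apply_ne h')
    rw [this]
    simp
  | succ k ih =>
    rw [pow_succ, Matrix.mul_apply] at h
    obtain ⟨s, _, hs⟩ := Finset.exists_ne_zero_of_sum_ne_zero h
    have h1 := ih s (left_ne_zero_of_mul hs)
    have h2 := right_ne_zero_of_mul hs
    unfold orbW at h2
    have h3 : ((orbE a R s).2 : ℕ) = (orbE a R q).2 + 1 := by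
      by_contra h'
      exact h2 (if_neg (fun h'' => h' h''.2))
    omega

theorem orb_affine (θ : Fin a → ℝ) (hθ : ∀ Y : Fin a → ℤ, ∀ t : ℤ, ∑ s, (Y s : ℝ) * θ s = t → Y = 0) :
    Pool.Agent.Helper16.CZP.Affine (1 + orbW a R) (orbB (R := R) θ) (orbS θ) := by
  refine ⟨?_, fun X hX hXA => ?_, fun x i => rfl⟩
  · rw [add_sub_cancel_left]
    ext p q
    by_contra h
    have h1 := orbW_pow (a * R) p q h
    have h2 := (orbE a R p).2.2
    have h3 : 0 < a := by
      rcases Nat.eq_zero_or_pos a with h' | h'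
      · subst h'
        exact absurd (orbE 0 R p).1.2 (by omega)
      · exact h'
    have h4 : R ≤ a * R := Nat.le_mul_of_pos_left R h3
    omega
  · have hW : Matrix.vecMul X (orbW a R) = 0 := by
      have h1 : Matrix.vecMul X (1 + orbW a R) = X + Matrix.vecMul X (orbW a R) := by
        rw [Matrix.vecMul_add, Matrix.vecMul_one]
      rw [h1] at hXA
      simpa using hXA
    have hX0 : ∀ p, 0 < ((orbE a R p).2 : ℕ) → X p = 0 := by
      intro p hp
      obtain ⟨q, hq1, hq2⟩ : ∃ q, (orbE a R q).1 = (orbE a R p).1 ∧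
          ((orbE a R q).2 : ℕ) + 1 = (orbE a R p).2 := by
        refine ⟨(orbE a R).symm ((orbE a R p).1, ⟨(orbE a R p).2 - 1, by omega⟩), ?_, ?_⟩
        · rw [Equiv.apply_symm_apply]
        · rw [Equiv.apply_symm_apply]
          show ((orbE a R p).2 : ℕ) - 1 + 1 = _
          omega
      have h1 := congrFun hW q
      rw [Matrix.vecMul, dotProduct, Finset.sum_eq_single p] at h1
      · have h2 : orbW a R p q = 1 := if_pos ⟨hq1.symm, hq2.symm⟩
        rw [h2] at h1
        simpa using h1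
      · intro s _ hs
        have h2 : orbW a R s q = 0 := by
          refine if_neg fun h' => hs ?_
          apply (orbE a R).injective
          refine Prod.ext (h'.1.trans hq1) (Fin.ext ?_)
          rw [h'.2, hq2]
        rw [h2, mul_zero]
      · intro h'
        exact absurd (Finset.mem_univ p) h'
    intro hsum
    apply hX
    rcases Nat.eq_zero_or_pos R with hR | hR
    · subst hR
      funext p
      exact absurd (orbE a 0 p).2.2 (by omega)
    have h1 : ∑ i, X i • orbB (R := R) θ i =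
        ((∑ s : Fin a, (X ((orbE a R).symm (s, ⟨0, hR⟩)) : ℝ) * θ s : ℝ) : UnitAddCircle) := by
      rw [← Equiv.sum_comp (orbE a R).symm, Fintype.sum_prod_type]
      have h2 : ∀ s : Fin a, ∑ l : Fin R, X ((orbE a R).symm (s, l)) •
          orbB (R := R) θ ((orbE a R).symm (s, l)) =
          (((X ((orbE a R).symm (s, ⟨0, hR⟩)) : ℝ) * θ s : ℝ) : UnitAddCircle) := by
        intro s
        rw [Finset.sum_eq_single (⟨0, hR⟩ : Fin R)]
        · unfold orbB
          rw [Equiv.apply_symm_apply, if_pos rfl, ← zsmul_eq_mul, AddCircle.coe_zsmul]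
        · intro l _ hl
          unfold orbB
          rw [Equiv.apply_symm_apply, if_neg (fun h' => hl (Fin.ext h')), smul_zero]
        · intro h'
          exact absurd (Finset.mem_univ _) h'
      rw [Finset.sum_congr rfl fun s _ => h2 s]
      symm
      exact map_sum (QuotientAddGroup.mk' (AddSubgroup.zmultiples (1 : ℝ))) _ _
    rw [h1, AddCircle.coe_eq_zero_iff] at hsum
    obtain ⟨n, hn⟩ := hsum
    have h3 := hθ (fun s => X ((orbE a R).symm (s, ⟨0, hR⟩))) n (by
      rw [← hn]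
      simp)
    funext p
    rcases Nat.eq_zero_or_pos ((orbE a R p).2 : ℕ) with h4 | h4
    · have h5 := congrFun h3 (orbE a R p).1
      have h6 : (orbE a R).symm ((orbE a R p).1, ⟨0, hR⟩) = p := by
        rw [Equiv.symm_apply_eq]
        exact Prod.ext rfl (Fin.ext h4.symm)
      simpa [h6] using h5
    · exact hX0 p h4

theorem orb_orbit (θ : Fin a → ℝ) (n : ℕ) (p : Fin (a * R)) :
    ((orbS (R := R) θ)^[n] 0) p =
      (((n.choose ((orbE a R p).2 + 1) : ℝ) * θ (orbE a R p).1 : ℝ) : UnitAddCircle) := by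
  induction n generalizing p with
  | zero => simp
  | succ n ih =>
    rw [Function.iterate_succ_apply']
    obtain ⟨z, hz⟩ : ∃ z, z = (orbS (R := R) θ)^[n] 0 := ⟨_, rfl⟩
    rw [← hz] at ih ⊢
    show (∑ q, (1 + orbW a R) p q • z q) + orbB (R := R) θ p = _
    have h1 : ∑ q, (1 + orbW a R) p q • z q = z p + ∑ q, orbW a R p q • z q := by
      simp only [Matrix.add_apply, add_smul, Finset.sum_add_distrib]
      congr 1
      rw [Finset.sum_eq_single p]
      · rw [Matrix.one_apply_eq, one_smul]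
      · intro q _ hq
        rw [Matrix.one_apply_ne (Ne.symm hq), zero_smul]
      · intro h'
        exact absurd (Finset.mem_univ _) h'
    rw [h1, ih p, Nat.choose_succ_succ]
    rcases Nat.eq_zero_or_pos ((orbE a R p).2 : ℕ) with h4 | h4
    · have h2 : ∑ q, orbW a R p q • z q = 0 := by
        refine Finset.sum_eq_zero fun q _ => ?_
        have h3 : orbW a R p q = 0 := if_neg (by omega)
        rw [h3, zero_smul]
      rw [h2, add_zero]
      unfold orbB
      rw [if_pos h4, h4, ← AddCircle.coe_add]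
      congr 1
      simp
      ring
    · obtain ⟨q, hq1, hq2⟩ : ∃ q, (orbE a R q).1 = (orbE a R p).1 ∧
          ((orbE a R q).2 : ℕ) + 1 = (orbE a R p).2 := by
        refine ⟨(orbE a R).symm ((orbE a R p).1, ⟨(orbE a R p).2 - 1, by omega⟩), ?_, ?_⟩
        · rw [Equiv.apply_symm_apply]
        · rw [Equiv.apply_symm_apply]
          show ((orbE a R p).2 : ℕ) - 1 + 1 = _
          omega
      have h2 : ∑ q, orbW a R p q • z q = z q := by
        rw [Finset.sum_eq_single q]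
        · have h3 : orbW a R p q = 1 := if_pos ⟨hq1.symm, hq2.symm⟩
          rw [h3, one_smul]
        · intro s _ hs
          have h3 : orbW a R p s = 0 := by
            refine if_neg fun h' => hs ?_
            apply (orbE a R).injective
            refine Prod.ext (h'.1.symm.trans hq1.symm) (Fin.ext ?_)
            have := h'.2
            omega
          rw [h3, zero_smul]
        · intro h'
          exact absurd (Finset.mem_univ _) h'
      rw [h2, ih q, hq1, hq2]
      unfold orbB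
      rw [if_neg (by omega), add_zero, ← AddCircle.coe_add]
      congr 1
      push_cast
      ring

end std

/-! ### the orbits of linear maps -/

theorem orb_coe_sum {ι : Type} (s : Finset ι) (f : ι → ℝ) :
    ((∑ i ∈ s, f i : ℝ) : UnitAddCircle) = ∑ i ∈ s, (f i : UnitAddCircle) :=
  map_sum (QuotientAddGroup.mk' (AddSubgroup.zmultiples (1 : ℝ))) _ _

theorem orb_main {κ : Type} [Fintype κ] [DecidableEq κ] (M : Matrix κ κ ℤ) (m Q R : ℕ)
    (hQ : 1 ≤ Q) (hM : M ^ m * (M ^ Q - 1) ^ R = 0) (z : κ → ℝ) :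
    ∃ (N Q' n₀ : ℕ) (A' : Matrix (Fin N) (Fin N) ℤ) (β' : T N) (S' : C(T N, T N))
      (P : ℕ → T N → κ → UnitAddCircle) (y : T N), 1 ≤ Q' ∧
      Pool.Agent.Helper16.CZP.Affine A' β' S' ∧ (∀ c, Continuous (P c)) ∧
      ∀ n, n₀ ≤ n → ∀ k, ((∑ l, ((M ^ n) k l : ℝ) * z l : ℝ) : UnitAddCircle) =
        P (n % Q') (S'^[n] y) k := by
  classical
  obtain ⟨a, D, θ, c, X, hD, hX, hθ⟩ := orb_basis z
  obtain ⟨L, hL⟩ : ∃ L, L = D * R.factorial := ⟨_, rfl⟩
  have hL1 : 1 ≤ L := by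
    rw [hL]
    exact Nat.mul_pos hD (Nat.factorial_pos R)
  have hD0 : (D : ℝ) ≠ 0 := by
    have : 0 < D := hD
    positivity
  have hc0 : ((D : ℝ) * (Q : ℝ) ^ R * (R.factorial : ℝ)) ≠ 0 := by
    have h1 : 0 < D := hD
    have h2 : 0 < Q := hQ
    have h3 : 0 < R.factorial := Nat.factorial_pos R
    positivity
  obtain ⟨θ', hθ'⟩ : ∃ θ' : Fin a → ℝ, θ' = fun s => θ s / ((D : ℝ) * (Q : ℝ) ^ R *
    (R.factorial : ℝ)) := ⟨_, rfl⟩
  have hθ1 : ∀ s, θ s = (D : ℝ) * (Q : ℝ) ^ R * (R.factorial : ℝ) * θ' s := by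
    intro s
    rw [hθ']
    field_simp
  have hind : ∀ Y : Fin a → ℤ, ∀ t : ℤ, ∑ s, (Y s : ℝ) * θ' s = t → Y = 0 := by
    intro Y t h
    refine hθ Y ((D : ℤ) * (Q : ℤ) ^ R * (R.factorial : ℤ) * t) ?_
    push_cast
    rw [← h, Finset.mul_sum]
    refine Finset.sum_congr rfl fun s _ => ?_
    rw [hθ1]
    ring
  have hg : ∀ c₀ i : ℕ, ∃ g : ℕ → ℤ, i ≤ R → ∀ n k : ℕ,
      (n : ℤ) = ((Q * L * m + c₀ : ℕ) : ℤ) + Q * k →
      (Q : ℤ) ^ R * (R.factorial : ℤ) * (k.choose i : ℤ) =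
        ∑ l ∈ range (R + 1), g l * (n.choose l : ℤ) := by
    intro c₀ i
    by_cases hi : i ≤ R
    · obtain ⟨g, hg⟩ := orb_choose Q R i hi ((Q * L * m + c₀ : ℕ) : ℤ)
      exact ⟨g, fun _ => hg⟩
    · exact ⟨0, fun h => absurd h hi⟩
  choose g hg using hg
  obtain ⟨B, hB⟩ : ∃ B : ℕ → ℕ → Matrix κ κ ℤ, B = fun c₀ i =>
    M ^ (Q * L * m + c₀) * (M ^ Q - 1) ^ i := ⟨_, rfl⟩
  obtain ⟨u0, hu0⟩ : ∃ u0 : ℕ → κ → ℕ → ℤ, u0 = fun c₀ k i => ∑ l, B c₀ i k l * c l := ⟨_, rfl⟩
  obtain ⟨u1, hu1⟩ : ∃ u1 : ℕ → κ → ℕ → Fin a → ℤ, u1 = fun c₀ k i s => ∑ l, B c₀ i k l * X l s :=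
    ⟨_, rfl⟩
  obtain ⟨rc, hrc⟩ : ∃ rc : ℕ → κ → ℝ, rc = fun cc k =>
    ((∑ i ∈ range R, ((cc / Q).choose i : ℤ) * u0 (cc % Q) k i : ℤ) : ℝ) / D +
    ∑ s, θ' s * ((∑ i ∈ range R, u1 (cc % Q) k i s * g (cc % Q) i 0 : ℤ) : ℝ) := ⟨_, rfl⟩
  obtain ⟨mc, hmc⟩ : ∃ mc : ℕ → κ → Fin a → ℕ → ℤ, mc = fun cc k s l =>
    ∑ i ∈ range R, u1 (cc % Q) k i s * g (cc % Q) i (l + 1) := ⟨_, rfl⟩
  refine ⟨a * R, Q * L, Q * L * m, 1 + orbW a R, orbB (R := R) θ', orbS θ',
    fun cc w k => (rc cc k : UnitAddCircle) +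
      ∑ p, mc cc k (orbE a R p).1 (orbE a R p).2 • w p, 0,
    Nat.mul_pos hQ hL1, orb_affine θ' hind, fun cc => by fun_prop, fun n hn k => ?_⟩
  obtain ⟨K, hK⟩ : ∃ K, K = n / Q := ⟨_, rfl⟩
  obtain ⟨c₀, hc₀⟩ : ∃ c₀, c₀ = n % Q := ⟨_, rfl⟩
  have hQ0 : 0 < Q := hQ
  have hL0 : 0 < L := hL1
  have hKm : L * m ≤ K := by
    rw [hK, Nat.le_div_iff_mul_le hQ0]
    calc L * m * Q = Q * L * m := by ring
      _ ≤ n := hn
  have hKL : m ≤ K / L := by
    rw [Nat.le_div_iff_mul_le hL0, mul_comm]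
    exact hKm
  have h1 : (n % (Q * L)) % Q = c₀ := by
    rw [hc₀]
    exact Nat.mod_mul_right_mod n Q L
  have h2 : (n % (Q * L)) / Q = K % L := by
    rw [hK]
    exact Nat.mod_mul_right_div_self n Q L
  obtain ⟨t, ht⟩ : ∃ t, K / L = m + t := Nat.exists_eq_add_of_le hKL
  have hKt : K = L * m + (K % L + L * t) := by
    have h3 := Nat.div_add_mod K L
    rw [ht] at h3
    calc K = L * (m + t) + K % L := h3.symm
      _ = _ := by ring
  have hnn : n = (Q * L * m + c₀) + Q * (K % L + L * t) := by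
    have h3 := Nat.div_add_mod n Q
    rw [← hK, ← hc₀, hKt] at h3
    calc n = Q * (L * m + (K % L + L * t)) + c₀ := by
          rw [← h3]
      _ = _ := by ring
  obtain ⟨kk, hkk⟩ : ∃ kk, kk = K % L + L * t := ⟨_, rfl⟩
  rw [← hkk] at hnn
  have hMa : M ^ (Q * L * m + c₀) * (M ^ Q - 1) ^ R = 0 := by
    have h3 : m ≤ Q * L * m + c₀ := by
      have : 1 * m ≤ Q * L * m := Nat.mul_le_mul_right m (Nat.mul_pos hQ0 hL0)
      omega
    obtain ⟨w, hw⟩ := Nat.exists_eq_add_of_le h3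
    rw [hw, add_comm m w, pow_add, mul_assoc, hM, mul_zero]
  have hpow : M ^ n = ∑ i ∈ range R, (kk.choose i : ℤ) • B c₀ i := by
    rw [hB]
    have h3 := orb_pow M (Q * L * m + c₀) Q R kk hMa
    rw [← hnn] at h3
    exact h3
  -- the integer identities
  have hint0 : ∑ l, (M ^ n) k l * c l = ∑ i ∈ range R, (kk.choose i : ℤ) * u0 c₀ k i := by
    rw [hpow, hu0]
    simp only [Matrix.sum_apply, Matrix.smul_apply, smul_eq_mul, Finset.sum_mul, Finset.mul_sum]
    rw [Finset.sum_comm]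
    refine Finset.sum_congr rfl fun i _ => Finset.sum_congr rfl fun l _ => ?_
    ring
  have hint1 : ∀ s, ∑ l, (M ^ n) k l * X l s =
      ∑ i ∈ range R, (kk.choose i : ℤ) * u1 c₀ k i s := by
    intro s
    rw [hpow, hu1]
    simp only [Matrix.sum_apply, Matrix.smul_apply, smul_eq_mul, Finset.sum_mul, Finset.mul_sum]
    rw [Finset.sum_comm]
    refine Finset.sum_congr rfl fun i _ => Finset.sum_congr rfl fun l _ => ?_
    ring
  have hpoly : ∀ s, (Q : ℤ) ^ R * (R.factorial : ℤ) *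
      (∑ i ∈ range R, (kk.choose i : ℤ) * u1 c₀ k i s) =
      (∑ i ∈ range R, u1 c₀ k i s * g c₀ i 0) +
      ∑ l ∈ range R, mc (n % (Q * L)) k s l * (n.choose (l + 1) : ℤ) := by
    intro s
    have h3 : ∀ i ∈ range R, (Q : ℤ) ^ R * (R.factorial : ℤ) * ((kk.choose i : ℤ) * u1 c₀ k i s) =
        u1 c₀ k i s * g c₀ i 0 +
        ∑ l ∈ range R, u1 c₀ k i s * g c₀ i (l + 1) * (n.choose (l + 1) : ℤ) := by
      intro i hi
      have h4 := hg c₀ i (le_of_lt (Finset.mem_range.1 hi)) n kk (by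
        rw [hnn]
        push_cast
        ring)
      rw [Finset.sum_range_succ'] at h4
      calc (Q : ℤ) ^ R * (R.factorial : ℤ) * ((kk.choose i : ℤ) * u1 c₀ k i s) =
          u1 c₀ k i s * ((Q : ℤ) ^ R * (R.factorial : ℤ) * (kk.choose i : ℤ)) := by ring
        _ = _ := by
          rw [h4, mul_add, Finset.mul_sum, add_comm]
          congr 1
          · simp
          · refine Finset.sum_congr rfl fun l _ => ?_
            ring
    rw [Finset.mul_sum, Finset.sum_congr rfl h3, Finset.sum_add_distrib]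
    congr 1
    rw [Finset.sum_comm, hmc]
    refine Finset.sum_congr rfl fun l _ => ?_
    show _ = (∑ i ∈ range R, u1 (n % (Q * L) % Q) k i s * g (n % (Q * L) % Q) i (l + 1)) *
      (n.choose (l + 1) : ℤ)
    rw [h1, Finset.sum_mul]
  -- the real identity
  have hreal : (∑ l, ((M ^ n) k l : ℝ) * z l) =
      ((∑ i ∈ range R, (kk.choose i : ℤ) * u0 c₀ k i : ℤ) : ℝ) / D +
      ∑ s, θ' s * (((Q : ℤ) ^ R * (R.factorial : ℤ) *
        (∑ i ∈ range R, (kk.choose i : ℤ) * u1 c₀ k i s) : ℤ) : ℝ) := by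
    have h3 : (D : ℝ) * (∑ l, ((M ^ n) k l : ℝ) * z l) =
        ((∑ l, (M ^ n) k l * c l : ℤ) : ℝ) + ∑ s, θ s * ((∑ l, (M ^ n) k l * X l s : ℤ) : ℝ) := by
      have h4 : ∀ l, (D : ℝ) * (((M ^ n) k l : ℝ) * z l) = ((M ^ n) k l : ℝ) * (c l : ℝ) +
          ∑ s, θ s * (((M ^ n) k l : ℝ) * (X l s : ℝ)) := by
        intro l
        calc (D : ℝ) * (((M ^ n) k l : ℝ) * z l) = ((M ^ n) k l : ℝ) * ((D : ℝ) * z l) := by ring
          _ = _ := by
            rw [hX l, mul_add, Finset.mul_sum]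
            congr 1
            refine Finset.sum_congr rfl fun s _ => ?_
            ring
      rw [Finset.mul_sum, Finset.sum_congr rfl fun l _ => h4 l, Finset.sum_add_distrib,
        Finset.sum_comm]
      push_cast
      congr 1
      refine Finset.sum_congr rfl fun s _ => ?_
      rw [Finset.mul_sum]
    rw [hint0] at h3
    simp only [hint1] at h3
    have h5 : (∑ l, ((M ^ n) k l : ℝ) * z l) = ((D : ℝ) * (∑ l, ((M ^ n) k l : ℝ) * z l)) / D := by
      field_simp
    rw [h5, h3, add_div, Finset.sum_div]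
    congr 1
    refine Finset.sum_congr rfl fun s _ => ?_
    rw [hθ1 s]
    push_cast
    field_simp
  rw [hreal]
  simp only [hpoly]
  -- the right side
  have hrhs : (rc (n % (Q * L)) k : UnitAddCircle) +
      ∑ p, mc (n % (Q * L)) k (orbE a R p).1 (orbE a R p).2 • ((orbS (R := R) θ')^[n] 0) p =
      ((rc (n % (Q * L)) k + ∑ s, θ' s * ((∑ l ∈ range R, mc (n % (Q * L)) k s l *
        (n.choose (l + 1) : ℤ) : ℤ) : ℝ) : ℝ) : UnitAddCircle) := by
    rw [AddCircle.coe_add]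
    congr 1
    rw [← Equiv.sum_comp (orbE a R).symm, Fintype.sum_prod_type, orb_coe_sum]
    refine Finset.sum_congr rfl fun s _ => ?_
    push_cast
    rw [Finset.mul_sum, ← Fin.sum_univ_eq_sum_range (fun l => θ' s *
      ((mc (n % (Q * L)) k s l : ℝ) * ((n.choose (l + 1) : ℕ) : ℝ))) R, orb_coe_sum]
    refine Finset.sum_congr rfl fun l _ => ?_
    rw [orb_orbit, Equiv.apply_symm_apply, ← AddCircle.coe_zsmul, zsmul_eq_mul]
    congr 1
    ring
  show _ = (rc (n % (Q * L)) k : UnitAddCircle) +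
      ∑ p, mc (n % (Q * L)) k (orbE a R p).1 (orbE a R p).2 • ((orbS (R := R) θ')^[n] 0) p
  rw [hrhs]
  -- the difference is an integer
  have hdvd : (D : ℤ) ∣ ∑ i ∈ range R, ((kk.choose i : ℤ) - ((K % L).choose i : ℤ)) * u0 c₀ k i := by
    refine Finset.dvd_sum fun i hi => Dvd.dvd.mul_right ?_ _
    rw [hkk, hL]
    exact orb_per D R t (K % (D * R.factorial)) i (le_of_lt (Finset.mem_range.1 hi))
  obtain ⟨w, hw⟩ := hdvd
  have hw2 : ((∑ i ∈ range R, (kk.choose i : ℤ) * u0 c₀ k i : ℤ) : ℝ) / D =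
      ((∑ i ∈ range R, ((K % L).choose i : ℤ) * u0 c₀ k i : ℤ) : ℝ) / D + w := by
    have h3 : (∑ i ∈ range R, (kk.choose i : ℤ) * u0 c₀ k i) =
        (∑ i ∈ range R, ((K % L).choose i : ℤ) * u0 c₀ k i) + D * w := by
      rw [← hw, ← Finset.sum_add_distrib]
      refine Finset.sum_congr rfl fun i _ => ?_
      ring
    rw [h3]
    push_cast
    field_simp
  rw [hw2, hrc]
  simp only [h1, h2]
  have hwc : ((w : ℝ) : UnitAddCircle) = 0 := by
    rw [AddCircle.coe_eq_zero_iff]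
    exact ⟨w, by simp⟩
  have hsplit : ∀ s, θ' s * (((∑ i ∈ range R, u1 c₀ k i s * g c₀ i 0) +
      ∑ l ∈ range R, mc (n % (Q * L)) k s l * (n.choose (l + 1) : ℤ) : ℤ) : ℝ) =
      θ' s * ((∑ i ∈ range R, u1 c₀ k i s * g c₀ i 0 : ℤ) : ℝ) +
      θ' s * ((∑ l ∈ range R, mc (n % (Q * L)) k s l * (n.choose (l + 1) : ℤ) : ℤ) : ℝ) := by
    intro s
    push_cast
    ring
  rw [Finset.sum_congr rfl fun s _ => hsplit s, Finset.sum_add_distrib]
  have hfin : ∀ a b c d : ℝ, ((a + (w : ℝ) + (b + c) : ℝ) : UnitAddCircle) =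
      ((a + b + c : ℝ) : UnitAddCircle) := by
    intro a b c _
    have h3 : a + (w : ℝ) + (b + c) = (a + b + c) + (w : ℝ) := by ring
    rw [h3, AddCircle.coe_add, hwc, add_zero]
  exact hfin _ _ _ 0

/-! ### affine maps -/

theorem orb_block_pow {r : ℕ} (A : Matrix (Fin r) (Fin r) ℤ) (n : ℕ) :
    ∃ B : Matrix (Fin r) (Fin r) ℤ,
      (Matrix.fromBlocks A 1 0 1 : Matrix (Fin r ⊕ Fin r) (Fin r ⊕ Fin r) ℤ) ^ n =
      Matrix.fromBlocks (A ^ n) B 0 1 := by
  induction n with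
  | zero => exact ⟨0, by rw [pow_zero, pow_zero, Matrix.fromBlocks_one]⟩
  | succ n ih =>
    obtain ⟨B, hB⟩ := ih
    refine ⟨A ^ n * 1 + B * 1, ?_⟩
    rw [pow_succ, hB, Matrix.fromBlocks_multiply]
    simp [pow_succ]

theorem orb_block_pow2 {r : ℕ} (A B : Matrix (Fin r) (Fin r) ℤ) (n : ℕ) :
    ∃ C : Matrix (Fin r) (Fin r) ℤ, (Matrix.fromBlocks A B 0 0) ^ (n + 1) =
      Matrix.fromBlocks (A ^ (n + 1)) C 0 (0 : Matrix (Fin r) (Fin r) ℤ) := by
  induction n with
  | zero => exact ⟨B, by simp⟩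
  | succ n ih =>
    obtain ⟨C, hC⟩ := ih
    refine ⟨A ^ (n + 1) * B, ?_⟩
    rw [pow_succ, hC, Matrix.fromBlocks_multiply]
    simp [pow_succ]

theorem orb_block {r : ℕ} (A : Matrix (Fin r) (Fin r) ℤ) (m Q : ℕ)
    (h : A ^ m * (A ^ Q - 1) ^ r = 0) :
    (Matrix.fromBlocks A 1 0 1 : Matrix (Fin r ⊕ Fin r) (Fin r ⊕ Fin r) ℤ) ^ (m + m) *
      ((Matrix.fromBlocks A 1 0 1 : Matrix (Fin r ⊕ Fin r) (Fin r ⊕ Fin r) ℤ) ^ Q - 1) ^ (r + r) =
      0 := by
  rcases Nat.eq_zero_or_pos r with hr | hr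
  · subst hr
    exact Subsingleton.elim _ _
  obtain ⟨M, hM⟩ : ∃ M : Matrix (Fin r ⊕ Fin r) (Fin r ⊕ Fin r) ℤ,
    M = Matrix.fromBlocks A 1 0 1 := ⟨_, rfl⟩
  rw [← hM]
  have h1 : ∃ C : Matrix (Fin r) (Fin r) ℤ, M ^ m * (M ^ Q - 1) ^ r =
      Matrix.fromBlocks 0 C 0 0 := by
    obtain ⟨B, hB⟩ := orb_block_pow A m
    obtain ⟨B', hB'⟩ := orb_block_pow A Q
    obtain ⟨r', rfl⟩ : ∃ r', r = r' + 1 := ⟨r - 1, by omega⟩
    have h2 : M ^ Q - 1 = Matrix.fromBlocks (A ^ Q - 1) B' 0 0 := by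
      rw [hM, hB', ← Matrix.fromBlocks_one, sub_eq_add_neg, Matrix.fromBlocks_neg,
        Matrix.fromBlocks_add]
      simp [sub_eq_add_neg]
    obtain ⟨C, hC⟩ := orb_block_pow2 (A ^ Q - 1) B' r'
    refine ⟨A ^ m * C, ?_⟩
    rw [h2, hC, hM, hB, Matrix.fromBlocks_multiply, h]
    simp
  obtain ⟨C, hC⟩ := h1
  have h2 : M ^ (m + m) * (M ^ Q - 1) ^ (r + r) =
      (M ^ m * (M ^ Q - 1) ^ r) * (M ^ m * (M ^ Q - 1) ^ r) := by
    have hc : Commute (M ^ m) ((M ^ Q - 1) ^ r) :=
      ((((Commute.refl M).pow_pow m Q).sub_right (Commute.one_right _)).pow_right r)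
    rw [pow_add, pow_add]
    exact hc.mul_mul_mul_comm _ _
  rw [h2, hC, Matrix.fromBlocks_multiply]
  simp

theorem st_ORB : ST_ORB := by
  intro r A β S x hS
  obtain ⟨⟨m, Q, hQ, hA⟩, hS⟩ := hS
  have hsurj : ∀ t : UnitAddCircle, ∃ s : ℝ, (s : UnitAddCircle) = t :=
    fun t => QuotientAddGroup.mk_surjective t
  choose x' hx' using fun i => hsurj (x i)
  choose b' hb' using fun i => hsurj (β i)
  obtain ⟨M, hM⟩ : ∃ M : Matrix (Fin r ⊕ Fin r) (Fin r ⊕ Fin r) ℤ,
    M = Matrix.fromBlocks A 1 0 1 := ⟨_, rfl⟩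
  obtain ⟨z, hz⟩ : ∃ z : Fin r ⊕ Fin r → ℝ, z = Sum.elim x' b' := ⟨_, rfl⟩
  have hB := orb_block A m Q hA
  rw [← hM] at hB
  obtain ⟨N, Q', n₀, A', β', S', P, y, h1, h2, h3, h4⟩ := orb_main M (m + m) Q (r + r) hQ hB z
  refine ⟨N, Q', n₀, A', β', S', fun c w i => P c w (Sum.inl i), y, h1, h2, fun c => ?_,
    fun n hn => ?_⟩
  · exact continuous_pi fun i => (continuous_apply (Sum.inl i)).comp (h3 c)
  · have h5 : ∀ n : ℕ, (∀ i, ∑ l, ((M ^ n) (Sum.inr i) l : ℝ) * z l = b' i) ∧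
        ∀ i, ((∑ l, ((M ^ n) (Sum.inl i) l : ℝ) * z l : ℝ) : UnitAddCircle) = S^[n] x i := by
      intro n
      induction n with
      | zero =>
        refine ⟨fun i => ?_, fun i => ?_⟩
        · rw [Finset.sum_eq_single (Sum.inr i)]
          · rw [pow_zero, Matrix.one_apply_eq, hz]
            simp
          · intro l _ hl
            rw [pow_zero, Matrix.one_apply_ne (Ne.symm hl)]
            simp
          · intro h'
            exact absurd (Finset.mem_univ _) h'
        · rw [Finset.sum_eq_single (Sum.inl i)]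
          · rw [pow_zero, Matrix.one_apply_eq, hz]
            simp [hx']
          · intro l _ hl
            rw [pow_zero, Matrix.one_apply_ne (Ne.symm hl)]
            simp
          · intro h'
            exact absurd (Finset.mem_univ _) h'
      | succ n ih =>
        obtain ⟨ih1, ih2⟩ := ih
        have h6 : ∀ j, ∑ l, ((M ^ (n + 1)) j l : ℝ) * z l =
            ∑ s, (M j s : ℝ) * ∑ l, ((M ^ n) s l : ℝ) * z l := by
          intro j
          rw [pow_succ']
          simp only [Matrix.mul_apply, Int.cast_sum, Int.cast_mul, Finset.sum_mul, Finset.mul_sum]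
          rw [Finset.sum_comm]
          refine Finset.sum_congr rfl fun s _ => Finset.sum_congr rfl fun l _ => ?_
          ring
        refine ⟨fun i => ?_, fun i => ?_⟩
        · rw [h6, Fintype.sum_sum_type, hM]
          simp only [Matrix.fromBlocks_apply₂₁, Matrix.fromBlocks_apply₂₂, Matrix.zero_apply,
            Int.cast_zero, zero_mul, Finset.sum_const_zero, zero_add]
          rw [← hM, Finset.sum_eq_single i]
          · rw [Matrix.one_apply_eq, Int.cast_one, one_mul]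
            exact ih1 i
          · intro l _ hl
            rw [Matrix.one_apply_ne (Ne.symm hl)]
            simp
          · intro h'
            exact absurd (Finset.mem_univ _) h'
        · rw [h6, Fintype.sum_sum_type, hM]
          simp only [Matrix.fromBlocks_apply₁₁, Matrix.fromBlocks_apply₁₂]
          rw [← hM, Finset.sum_eq_single_of_mem i (Finset.mem_univ i) (f := fun j =>
            (((1 : Matrix (Fin r) (Fin r) ℤ) i j : ℤ) : ℝ) *
              ∑ l, ((M ^ n) (Sum.inr j) l : ℝ) * z l) (fun l _ hl => by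
            rw [Matrix.one_apply_ne (Ne.symm hl)]
            simp)]
          rw [Matrix.one_apply_eq, Int.cast_one, one_mul, ih1 i, AddCircle.coe_add, orb_coe_sum,
            hb' i, Function.iterate_succ_apply', hS]
          congr 1
          refine Finset.sum_congr rfl fun j _ => ?_
          rw [← ih2 j, ← AddCircle.coe_zsmul, zsmul_eq_mul]
    funext i
    rw [← (h5 n).2 i]
    exact h4 n hn (Sum.inl i)

end Pool.Agent.Helper40.DZ
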