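import Pool.Agent.Helper40.DZ.Stmts

/-! QLM: the masses for `q → ∞`. -/

open Finset Filter MeasureTheory Topology
open scoped ComplexConjugate InnerProductSpace

namespace Pool.Agent.Helper40.DZ

open Pool.Agent.Helper16.AZ (T E Op mm fc)
open UnitAddTorus (mFourier)

theorem qlm_eventually {r : ℕ} (lev : Fin r → ℕ) (j : ℕ) (X : Fin r → ℤ) :
    ∀ᶠ q : ℕ in atTop, (X ∈ BB lev q j ↔ X ∈ BB lev 0 j) := by
  filter_upwards [eventually_gt_atTop (∑ i, (X i).natAbs)] with q hq
  have h : ∀ i, (q : ℤ) ∣ X i ↔ ((0 : ℕ) : ℤ) ∣ X i := by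
    intro i
    have h1 : (X i).natAbs < q :=
      lt_of_le_of_lt (Finset.single_le_sum (f := fun i => (X i).natAbs)
        (fun _ _ => Nat.zero_le _) (Finset.mem_univ i)) hq
    constructor
    · intro h2
      have h3 : X i = 0 := by
        apply Int.eq_zero_of_abs_lt_dvd h2
        rw [Int.abs_eq_natAbs]
        exact_mod_cast h1
      rw [h3]
      exact dvd_zero _
    · intro h2
      have h3 : X i = 0 := by simpa using h2
      rw [h3]
      exact dvd_zero _
  simp only [BB, Set.mem_ofPred_eq, h]

theorem st_QLM (hF : ST_FPR) : ST_QLM := by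
  intro r lev j F hF2
  have hs : Summable (fun X : Fin r → ℤ => ‖fc F X‖ ^ 2) := (hF r F hF2).1.summable
  unfold nr
  refine tendsto_tsum_of_dominated_convergence (bound := fun X : Fin r → ℤ => ‖fc F X‖ ^ 2) hs
    (fun X => ?_) (Eventually.of_forall fun q X => ?_)
  · refine tendsto_const_nhds.congr' ?_
    filter_upwards [qlm_eventually lev j X] with q hq
    by_cases h : X ∈ BB lev 0 j
    · rw [Set.indicator_of_mem h, Set.indicator_of_mem (hq.2 h)]
    · rw [Set.indicator_of_notMem h, Set.indicator_of_notMem (fun h' => h (hq.1 h'))]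
  · rw [Real.norm_of_nonneg (Set.indicator_nonneg (fun X _ => by positivity) X)]
    exact Set.indicator_le_self' (fun X _ => by positivity) X

end Pool.Agent.Helper40.DZ
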