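import Pool.Agent.Helper40.DZ.Stmts

/-! NRD: elementary properties of the masses. -/

open Finset Filter MeasureTheory Topology
open scoped ComplexConjugate InnerProductSpace

namespace Pool.Agent.Helper40.DZ

open Pool.Agent.Helper16.AZ (T E Op mm fc)
open UnitAddTorus (mFourier)

theorem nrd_point {r : ℕ} (lev : Fin r → ℕ) (g : (Fin r → ℤ) → ℝ) (q Lv : ℕ)
    (hL : ∀ i, lev i < Lv) (X : Fin r → ℤ) :
    (RR lev q).indicator g X =
      ∑ j ∈ range Lv, ((BB lev q j).indicator g X - (BB lev 0 j).indicator g X) := by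
  classical
  by_cases hX : X = 0
  · subst hX
    have h1 : (0 : Fin r → ℤ) ∉ RR lev q := fun h => h.1 rfl
    have h2 : ∀ q j, (0 : Fin r → ℤ) ∈ BB lev q j := fun q j i => ⟨fun _ => rfl, fun _ => dvd_zero _⟩
    rw [Set.indicator_of_notMem h1]
    symm
    refine Finset.sum_eq_zero fun j _ => ?_
    rw [Set.indicator_of_mem (h2 q j), Set.indicator_of_mem (h2 0 j), sub_self]
  · obtain ⟨i₀, hi₀⟩ := Function.ne_iff.1 hX
    obtain ⟨i₁, hi₁, hmax⟩ := Finset.exists_max_image (Finset.univ.filter fun i => X i ≠ 0) lev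
      ⟨i₀, by simpa using hi₀⟩
    have hi₁' : X i₁ ≠ 0 := by simpa using hi₁
    have hmax' : ∀ i, X i ≠ 0 → lev i ≤ lev i₁ := fun i hi => hmax i (by simpa using hi)
    have hz : ∀ i, lev i₁ < lev i → X i = 0 := by
      intro i hi
      by_contra h
      exact absurd (hmax' i h) (by omega)
    have hlt : ∀ q j, j < lev i₁ → X ∉ BB lev q j := fun q j hj h => hi₁' ((h i₁).1 hj)
    have hgt : ∀ q j, lev i₁ < j → X ∈ BB lev q j := by
      intro q j hj i
      refine ⟨fun h => hz i (by omega), fun h => ?_⟩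
      rw [hz i (by omega)]
      exact dvd_zero _
    rw [Finset.sum_eq_single_of_mem (lev i₁) (Finset.mem_range.2 (hL i₁))]
    · have h0 : X ∉ BB lev 0 (lev i₁) := by
        intro h
        have := (h i₁).2 rfl
        simp only [Nat.cast_zero, zero_dvd_iff] at this
        exact hi₁' this
      rw [Set.indicator_of_notMem h0, sub_zero]
      have h1 : X ∈ RR lev q ↔ X ∈ BB lev q (lev i₁) := by
        constructor
        · intro h i
          refine ⟨hz i, fun hi => h.2 i fun i' hi' => ?_⟩
          rw [hi]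
          exact hmax' i' hi'
        · intro h
          refine ⟨hX, fun i hi => ?_⟩
          have h2 := hi i₁ hi₁'
          rcases Nat.lt_or_ge (lev i₁) (lev i) with h3 | h3
          · rw [hz i h3]
            exact dvd_zero _
          · exact (h i).2 (by omega)
      by_cases h : X ∈ RR lev q
      · rw [Set.indicator_of_mem h, Set.indicator_of_mem (h1.1 h)]
      · rw [Set.indicator_of_notMem h, Set.indicator_of_notMem (fun h' => h (h1.2 h'))]
    · intro j _ hj
      rcases Nat.lt_or_gt_of_ne hj with h | h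
      · rw [Set.indicator_of_notMem (hlt q j h), Set.indicator_of_notMem (hlt 0 j h), sub_self]
      · rw [Set.indicator_of_mem (hgt q j h), Set.indicator_of_mem (hgt 0 j h), sub_self]

theorem nrd_bound {r : ℕ} {F : T r → ℂ} {s : ℝ}
    (h : HasSum (fun X : Fin r → ℤ => ‖fc F X‖ ^ 2) s) (A : Set (Fin r → ℤ)) :
    0 ≤ ∑' X : Fin r → ℤ, A.indicator (fun X => ‖fc F X‖ ^ 2) X ∧
    ∑' X : Fin r → ℤ, A.indicator (fun X => ‖fc F X‖ ^ 2) X ≤ s := by
  refine ⟨tsum_nonneg fun X => Set.indicator_nonneg (fun X _ => by positivity) X, ?_⟩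
  rw [← h.tsum_eq]
  exact (h.summable.indicator A).tsum_le_tsum
    (fun X => Set.indicator_le_self' (fun X _ => by positivity) X) h.summable

theorem st_NRD (hF : ST_FPR) : ST_NRD := by
  intro r lev F hF2
  have h := (hF r F hF2).1
  have hs : Summable (fun X : Fin r → ℤ => ‖fc F X‖ ^ 2) := h.summable
  refine ⟨fun q Lv hL => ?_, fun q j => nrd_bound h _, fun q => nrd_bound h _, ?_⟩
  · unfold mq
    rw [tsum_congr fun X => nrd_point lev (fun X => ‖fc F X‖ ^ 2) q Lv hL X]
    rw [Summable.tsum_finsetSum fun j _ => (hs.indicator _).sub (hs.indicator _)]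
    refine Finset.sum_congr rfl fun j _ => ?_
    exact (hs.indicator _).tsum_sub (hs.indicator _)
  · unfold nr
    rw [tsum_eq_single (0 : Fin r → ℤ)]
    · have h1 : (0 : Fin r → ℤ) ∈ BB lev 0 0 := fun i => ⟨fun _ => rfl, fun _ => dvd_zero _⟩
      rw [Set.indicator_of_mem h1]
      congr 2
      unfold fc
      refine integral_congr_ae (Eventually.of_forall fun θ => ?_)
      show mFourier (-0) θ * F θ = F θ
      rw [neg_zero, UnitAddTorus.mFourier_zero]
      simp
    · intro X hX
      refine Set.indicator_of_notMem (fun h' => hX ?_) _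
      funext i
      rcases Nat.eq_zero_or_pos (lev i) with h2 | h2
      · have := (h' i).2 h2
        simpa using this
      · exact (h' i).1 h2

end Pool.Agent.Helper40.DZ
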